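import Mathlib

/-!
# `MP_68e5bf_al`: the function counting `p`-elements in centralizers need not be a character

For a finite group `G` and a prime `p` let `Ψ(x)` be the number of `p`-elements commuting with `x`
if `x` is `p`-regular and `0` otherwise.  We construct a group `G = N ⋊ (SL(2,3) ∘ C₄)` of order
`11664`, `N` extraspecial of order `3^5` and exponent `3`, for which `Ψ` (with `p = 2`) is not a
character.

The proof: `(1/|U|) ∑_{u ∈ U} Ψ(u) χ(u⁻¹) = (1/|U|) ∑_{g ∈ G} χ(g^8)` is negative for the subgroup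
`U = N ⋊ SL(2,3)` of index two and its Weil character `χ` of degree `9`
(which takes the value `-3` on the elements of order three of `SL(2,3)`): the sum equals `-|U|`.
-/

namespace Pool.Agent.Results.MP_68e5bf_al.PsiNotCharacter

open scoped Kronecker

/-- `Psi p G x` is the number of `p`-elements (elements of `p`-power order) commuting with `x`
if the order of `x` is coprime to `p`, and `0` otherwise. -/
noncomputable def Psi (p : ℕ) (G : Type*) [Group G] (x : G) : ℕ :=
  open Classical in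
  if (orderOf x).Coprime p then
    Nat.card {y : G // (∃ m : ℕ, orderOf y = p ^ m) ∧ y * x = x * y} else 0

section General

theorem pow9_of {G : Type*} [Group G] (h72 : ∀ g : G, g ^ 72 = 1) {x : G}
    (hx : (orderOf x).Coprime 2) : x ^ 9 = 1 := by
  have h1 : orderOf x ∣ 72 := orderOf_dvd_of_pow_eq_one (h72 x)
  have h2 : orderOf x ∣ 9 := by
    have h3 : (orderOf x).Coprime 8 := by
      have := Nat.Coprime.pow_right 3 hx
      simpa using this
    have h4 : orderOf x ∣ 8 * 9 := by simpa using h1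
    exact h3.dvd_of_dvd_mul_left h4
  exact orderOf_dvd_iff_pow_eq_one.1 h2

theorem pow8_of {G : Type*} [Group G] (h72 : ∀ g : G, g ^ 72 = 1) {y : G} {m : ℕ}
    (hy : orderOf y = 2 ^ m) : y ^ 8 = 1 := by
  have h1 : orderOf y ∣ 72 := orderOf_dvd_of_pow_eq_one (h72 y)
  have h2 : orderOf y ∣ 8 := by
    have h3 : (orderOf y).Coprime 9 := by
      rw [hy]
      exact Nat.Coprime.pow_left m (by norm_num)
    have h4 : orderOf y ∣ 8 * 9 := by simpa using h1
    exact h3.dvd_of_dvd_mul_right h4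
  exact orderOf_dvd_iff_pow_eq_one.1 h2

theorem Psi_eq {G : Type*} [Group G] [Fintype G] [DecidableEq G] (h72 : ∀ g : G, g ^ 72 = 1)
    (x : G) : Psi 2 G x = (Finset.univ.filter fun g : G => (g ^ 8)⁻¹ = x).card := by
  unfold Psi
  split_ifs with hx
  · rw [← Fintype.card_subtype, ← Nat.card_eq_fintype_card]
    have hx9 := pow9_of h72 hx
    refine Nat.card_congr ⟨fun y => ⟨x * y.1, ?_⟩, fun g => ⟨x⁻¹ * g.1, ?_, ?_⟩, ?_, ?_⟩
    · obtain ⟨y, ⟨m, hm⟩, hc⟩ := y
      have hy8 := pow8_of h72 hm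
      have hc' : Commute x y := hc.symm
      have : (x * y) ^ 8 = x⁻¹ := by
        rw [hc'.mul_pow, hy8, mul_one, eq_inv_iff_mul_eq_one, ← pow_succ, hx9]
      simp [this]
    · obtain ⟨g, hg⟩ := g
      have h1 : x⁻¹ * g = g ^ 9 := by
        rw [← hg, inv_inv, ← pow_succ]
      have h2 : (x⁻¹ * g) ^ (2 ^ 3) = 1 := by
        rw [h1, ← pow_mul]
        exact h72 g
      obtain ⟨m, -, hm⟩ := (Nat.dvd_prime_pow Nat.prime_two).1 (orderOf_dvd_of_pow_eq_one h2)
      exact ⟨m, hm⟩
    · obtain ⟨g, hg⟩ := g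
      have h1 : x⁻¹ * g = g ^ 9 := by
        rw [← hg, inv_inv, ← pow_succ]
      change x⁻¹ * g * x = x * (x⁻¹ * g)
      rw [h1, ← hg]
      have : Commute (g ^ 9) ((g ^ 8)⁻¹) := ((Commute.refl g).pow_pow 9 8).inv_right
      exact this
    · intro y
      ext
      simp
    · intro g
      ext
      simp
  · symm
    rw [Finset.card_eq_zero, Finset.filter_eq_empty_iff]
    intro g _ hg
    apply hx
    have h1 : x ^ 9 = 1 := by
      rw [← hg, inv_pow, ← pow_mul, h72 g, inv_one]
    have h2 : orderOf x ∣ 9 := orderOf_dvd_of_pow_eq_one h1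
    exact Nat.Coprime.coprime_dvd_left h2 (by norm_num)

theorem sum_Psi {G : Type*} [Group G] [Fintype G] (h72 : ∀ g : G, g ^ 72 = 1)
    {A : Type*} [CommRing A] (f : G → A) :
    ∑ x : G, (Psi 2 G x : A) * f x⁻¹ = ∑ g : G, f (g ^ 8) := by
  classical
  rw [← Finset.sum_fiberwise (s := (Finset.univ : Finset G)) (g := fun g : G => (g ^ 8)⁻¹)
    (f := fun g : G => f (g ^ 8))]
  refine Finset.sum_congr rfl fun x _ => ?_
  rw [Psi_eq h72 x, ← nsmul_eq_mul]
  symm
  apply Finset.sum_eq_card_nsmul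
  intro g hg
  rw [Finset.mem_filter] at hg
  rw [← hg.2, inv_inv]

/-- The pairing of `Psi` with a character of a group `U` mapping injectively to `G`. -/
theorem pairing {G U : Type*} [Group G] [Fintype G] [Group U] [Fintype U]
    (h72 : ∀ g : G, g ^ 72 = 1) (i : U →* G) (hi : Function.Injective i)
    (hr : ∀ g : G, g ^ 8 ∈ i.range)
    {k V W : Type*} [Field k] [CharZero k] [AddCommGroup V] [Module k V] [FiniteDimensional k V]
    [AddCommGroup W] [Module k W] [FiniteDimensional k W]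
    (ρ : Representation k G V) (hρ : ∀ x, LinearMap.trace k V (ρ x) = (Psi 2 G x : k))
    (σ : Representation k U W) (f : G → k) (hf : ∀ u, f (i u) = LinearMap.trace k W (σ u)) :
    ∃ n : ℕ, ∑ g : G, f (g ^ 8) = (n : k) := by
  have hU : (Nat.card U : k) ≠ 0 := by
    have : Nat.card U ≠ 0 := Nat.card_ne_zero.2 ⟨⟨1⟩, inferInstance⟩
    exact_mod_cast this
  have : Invertible (Nat.card U : k) := invertibleOfNonzero hU
  let τ : Representation k U V := MonoidHom.comp ρ i
  have h1 := Representation.card_inv_mul_sum_char_mul_char_eq_finrank σ τ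
  rw [inv_mul_eq_iff_eq_mul₀ hU] at h1
  have h2 : ∑ u : U, τ.character u * σ.character u⁻¹ =
      ∑ x : G, (Psi 2 G x : k) * f x⁻¹ := by
    apply Fintype.sum_of_injective i hi
    · intro x hx
      have : Psi 2 G x = 0 := by
        unfold Psi
        rw [if_neg]
        intro hc
        apply hx
        have h9 := pow9_of h72 hc
        have h3 : x = (x ^ 8)⁻¹ := by
          rw [eq_inv_iff_mul_eq_one, ← pow_succ', h9]
        have h4 : (x ^ 8)⁻¹ ∈ i.range := i.range.inv_mem (hr x)
        rw [← h3] at h4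
        exact h4
      rw [this]
      simp
    · intro u
      have h3 : τ.character u = (Psi 2 G (i u) : k) := hρ (i u)
      have h4 : σ.character u⁻¹ = f (i u)⁻¹ := by
        rw [← map_inv, hf]
        rfl
      rw [h3, h4]
  rw [h2, sum_Psi h72] at h1
  exact ⟨Nat.card U * Module.finrank k (Representation.IntertwiningMap σ τ), by
    rw [h1]; push_cast; rfl⟩

end General


/-! ### The concrete group -/

abbrev F := ZMod 3

theorem three_eq : (3 : F) = 0 := by decide

@[ext] structure R9 where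
  x1 : F
  y1 : F
  x2 : F
  y2 : F
  z : F
  a : F
  b : F
  c : F
  d : F
deriving DecidableEq

def mulR (r s : R9) : R9 where
  x1 := r.x1 + (r.a * s.x1 + r.b * s.y1)
  y1 := r.y1 + (r.c * s.x1 + r.d * s.y1)
  x2 := r.x2 + (r.a * s.x2 + r.b * s.y2)
  y2 := r.y2 + (r.c * s.x2 + r.d * s.y2)
  z := r.z + s.z + 2 * (r.x1 * (r.c * s.x1 + r.d * s.y1) - r.y1 * (r.a * s.x1 + r.b * s.y1)
    + r.x2 * (r.c * s.x2 + r.d * s.y2) - r.y2 * (r.a * s.x2 + r.b * s.y2))
  a := r.a * s.a + r.b * s.c
  b := r.a * s.b + r.b * s.d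
  c := r.c * s.a + r.d * s.c
  d := r.c * s.b + r.d * s.d

def oneR : R9 := ⟨0, 0, 0, 0, 0, 1, 0, 0, 1⟩

def invR (r : R9) : R9 where
  x1 := -(r.d * r.x1 - r.b * r.y1)
  y1 := -(-r.c * r.x1 + r.a * r.y1)
  x2 := -(r.d * r.x2 - r.b * r.y2)
  y2 := -(-r.c * r.x2 + r.a * r.y2)
  z := -r.z
  a := r.d
  b := -r.b
  c := -r.c
  d := r.a

def alR (r : R9) : R9 where
  x1 := r.y1 + r.y2
  y1 := -(r.x1 + r.x2)
  x2 := r.y1 - r.y2
  y2 := -(r.x1 - r.x2)
  z := - r.z
  a := r.d
  b := - r.c
  c := - r.b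
  d := r.a

theorem mulR_assoc (r s t : R9) (h : r.a * r.d - r.b * r.c = 1) :
    mulR (mulR r s) t = mulR r (mulR s t) := by
  ext <;> simp only [mulR]
  · ring
  · ring
  · ring
  · ring
  rotate_left
  · ring
  · ring
  · ring
  · ring
  linear_combination 2 * (s.x1 * (s.c * t.x1 + s.d * t.y1) - s.y1 * (s.a * t.x1 + s.b * t.y1)
    + s.x2 * (s.c * t.x2 + s.d * t.y2) - s.y2 * (s.a * t.x2 + s.b * t.y2)) * h

theorem oneR_mulR (r : R9) : mulR oneR r = r := by
  ext <;> simp [mulR, oneR]

theorem invR_mulR (r : R9) (h : r.a * r.d - r.b * r.c = 1) : mulR (invR r) r = oneR := by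
  ext <;> simp only [mulR, oneR, invR]
  · ring
  · ring
  · ring
  · ring
  · ring_nf
  · linear_combination h
  · ring
  · ring
  · linear_combination h

theorem det_mulR (r s : R9) (hr : r.a * r.d - r.b * r.c = 1) (hs : s.a * s.d - s.b * s.c = 1) :
    (mulR r s).a * (mulR r s).d - (mulR r s).b * (mulR r s).c = 1 := by
  simp only [mulR]
  linear_combination (s.a * s.d - s.b * s.c) * hr + hs

theorem alR_mulR (r s : R9) : alR (mulR r s) = mulR (alR r) (alR s) := by
  ext <;> simp only [mulR, alR]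
  · ring
  · ring
  · ring
  · ring
  · linear_combination (-2 * (r.x1 * (r.c * s.x1 + r.d * s.y1) - r.y1 * (r.a * s.x1 + r.b * s.y1)
      + r.x2 * (r.c * s.x2 + r.d * s.y2) - r.y2 * (r.a * s.x2 + r.b * s.y2))) * three_eq
  · ring
  · ring
  · ring
  · ring

theorem alR_alR (r : R9) : alR (alR r) = r := by
  ext <;> simp only [alR]
  · linear_combination (-r.x1) * three_eq
  · linear_combination (-r.y1) * three_eq
  · linear_combination (-r.x2) * three_eq
  · linear_combination (-r.y2) * three_eq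
  · ring
  · ring
  · ring

/-! ### The group `U` -/

def U : Type := {r : R9 // r.a * r.d - r.b * r.c = 1}

namespace U

instance : DecidableEq U := inferInstanceAs (DecidableEq {r : R9 // r.a * r.d - r.b * r.c = 1})

instance : Mul U := ⟨fun u v => ⟨mulR u.1 v.1, det_mulR u.1 v.1 u.2 v.2⟩⟩

instance : One U := ⟨⟨oneR, by decide⟩⟩

instance : Inv U := ⟨fun u => ⟨invR u.1, by
  have h := u.2
  simp only [invR]
  linear_combination h⟩⟩

instance : Group U := Group.ofLeftAxioms
  (fun u v w => Subtype.ext (mulR_assoc u.1 v.1 w.1 u.2))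
  (fun u => Subtype.ext (oneR_mulR u.1))
  (fun u => Subtype.ext (invR_mulR u.1 u.2))

theorem mul_val (u v : U) : (u * v).1 = mulR u.1 v.1 := rfl

theorem one_val : (1 : U).1 = oneR := rfl

/-- The automorphism of `U` of order two. -/
def al (u : U) : U := ⟨alR u.1, by
  have h := u.2
  simp only [alR]
  linear_combination h⟩

theorem al_mul (u v : U) : al (u * v) = al u * al v := Subtype.ext (alR_mulR u.1 v.1)

theorem al_al (u : U) : al (al u) = u := Subtype.ext (alR_alR u.1)

theorem al_one : al 1 = 1 := by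
  have h := al_mul 1 1
  rw [mul_one] at h
  exact (mul_eq_left.1 h.symm)

end U

/-! ### The group `GG = U ⋊ C₂` of order `11664` -/

@[ext] structure GG where
  u : U
  e : Bool

namespace GG

/-- action of `C₂` on `U` -/
def act (e : Bool) (u : U) : U := if e then U.al u else u

theorem act_mul (e : Bool) (u v : U) : act e (u * v) = act e u * act e v := by
  cases e
  · rfl
  · exact U.al_mul u v

theorem act_one (e : Bool) : act e 1 = 1 := by
  cases e
  · rfl
  · exact U.al_one

theorem act_act (e f : Bool) (u : U) : act e (act f u) = act (xor e f) u := by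
  cases e <;> cases f
  · rfl
  · rfl
  · rfl
  · exact U.al_al u

instance : Mul GG := ⟨fun g h => ⟨g.u * act g.e h.u, xor g.e h.e⟩⟩

instance : One GG := ⟨⟨1, false⟩⟩

instance : Inv GG := ⟨fun g => ⟨act g.e g.u⁻¹, g.e⟩⟩

theorem mul_def (g h : GG) : g * h = ⟨g.u * act g.e h.u, xor g.e h.e⟩ := rfl

theorem one_def : (1 : GG) = ⟨1, false⟩ := rfl

theorem inv_def (g : GG) : g⁻¹ = ⟨act g.e g.u⁻¹, g.e⟩ := rfl

instance : Group GG := Group.ofLeftAxioms
  (fun g h k => by
    simp only [mul_def, act_mul, act_act, mul_assoc, Bool.xor_assoc])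
  (fun g => by
    simp only [mul_def, one_def, one_mul, Bool.false_xor]
    rfl)
  (fun g => by
    simp only [mul_def, one_def, inv_def, ← act_mul, inv_mul_cancel, act_one, Bool.xor_self])

end GG

/-! ### Finiteness and exponent -/

def r9Equiv : (F × F × F × F) × (F × F × F × F × F) ≃ R9 where
  toFun p := ⟨p.2.1, p.2.2.1, p.2.2.2.1, p.2.2.2.2.1, p.2.2.2.2.2, p.1.1, p.1.2.1, p.1.2.2.1,
    p.1.2.2.2⟩
  invFun r := ((r.a, r.b, r.c, r.d), (r.x1, r.y1, r.x2, r.y2, r.z))
  left_inv _ := rfl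
  right_inv _ := rfl

instance : Fintype R9 := Fintype.ofEquiv _ r9Equiv

instance : Fintype U := Subtype.fintype fun r : R9 => r.a * r.d - r.b * r.c = 1

def ggEquiv : Bool × U ≃ GG where
  toFun p := ⟨p.2, p.1⟩
  invFun g := (g.e, g.u)
  left_inv _ := rfl
  right_inv _ := rfl

instance : Fintype GG := Fintype.ofEquiv _ ggEquiv

theorem sum_GG {A : Type*} [AddCommMonoid A] (f : GG → A) :
    ∑ g : GG, f g = ∑ u : U, f ⟨u, true⟩ + ∑ u : U, f ⟨u, false⟩ := by
  rw [← ggEquiv.sum_comp, Fintype.sum_prod_type, Fintype.sum_bool]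
  rfl

theorem sum_U {A : Type*} [AddCommMonoid A] (f : R9 → A) :
    ∑ u : U, f u.1 = ∑ a : F, ∑ b : F, ∑ c : F, ∑ d : F, if a * d - b * c = 1 then
      ∑ x1 : F, ∑ y1 : F, ∑ x2 : F, ∑ y2 : F, ∑ z : F, f ⟨x1, y1, x2, y2, z, a, b, c, d⟩
      else 0 := by
  have h1 : ∑ u : U, f u.1 = ∑ r : R9, if r.a * r.d - r.b * r.c = 1 then f r else 0 := by
    rw [← Finset.sum_filter]
    exact (Finset.sum_subtype _ (by simp) f).symm
  rw [h1, ← r9Equiv.sum_comp, Fintype.sum_prod_type, Fintype.sum_prod_type]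
  refine Finset.sum_congr rfl fun a _ => ?_
  rw [Fintype.sum_prod_type]
  refine Finset.sum_congr rfl fun b _ => ?_
  rw [Fintype.sum_prod_type]
  refine Finset.sum_congr rfl fun c _ => ?_
  refine Finset.sum_congr rfl fun d _ => ?_
  by_cases h : a * d - b * c = 1
  · rw [if_pos h]
    rw [Fintype.sum_prod_type]
    refine Finset.sum_congr rfl fun x1 _ => ?_
    rw [Fintype.sum_prod_type]
    refine Finset.sum_congr rfl fun y1 _ => ?_
    rw [Fintype.sum_prod_type]
    refine Finset.sum_congr rfl fun x2 _ => ?_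
    rw [Fintype.sum_prod_type]
    refine Finset.sum_congr rfl fun y2 _ => ?_
    refine Finset.sum_congr rfl fun z _ => ?_
    exact if_pos h
  · rw [if_neg h]
    apply Finset.sum_eq_zero
    intro x _
    exact if_neg h

/-- the matrix part of a raw element, with zero vector part -/
def zv (r : R9) : R9 := ⟨0, 0, 0, 0, 0, r.a, r.b, r.c, r.d⟩

theorem zv_mulR (r s : R9) : zv (mulR r s) = mulR (zv r) (zv s) := by
  ext <;> simp [zv, mulR]

theorem zv_pow12 : ∀ a b c d : F, a * d - b * c = 1 →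
    let r : R9 := ⟨0, 0, 0, 0, 0, a, b, c, d⟩
    let r3 := mulR (mulR r r) r
    mulR (mulR r3 r3) (mulR r3 r3) = oneR := by
  decide +kernel

theorem cube_of_zv (r : R9) (h : zv r = oneR) : mulR (mulR r r) r = oneR := by
  simp only [zv, oneR, R9.mk.injEq, true_and] at h
  obtain ⟨ha, hb, hc, hd⟩ := h
  ext <;> simp only [mulR, oneR, ha, hb, hc, hd]
  · linear_combination r.x1 * three_eq
  · linear_combination r.y1 * three_eq
  · linear_combination r.x2 * three_eq
  · linear_combination r.y2 * three_eq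
  · linear_combination r.z * three_eq
  · ring
  · ring
  · ring
  · ring

theorem U.pow36 (u : U) : u ^ 36 = 1 := by
  have h12 : zv (u ^ 12).1 = oneR := by
    have h1 : u ^ 12 = ((u * u * u) * (u * u * u)) * ((u * u * u) * (u * u * u)) := by
      simp only [pow_succ, pow_zero, one_mul, mul_assoc]
    rw [h1]
    simp only [U.mul_val, zv_mulR]
    exact zv_pow12 u.1.a u.1.b u.1.c u.1.d u.2
  have h3 : (u ^ 12 * u ^ 12 * u ^ 12) = 1 := by
    apply Subtype.ext
    rw [U.mul_val, U.mul_val, cube_of_zv _ h12]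
    rfl
  rw [← h3, ← pow_add, ← pow_add]

theorem GG.sq (g : GG) : g ^ 2 = ⟨g.u * GG.act g.e g.u, false⟩ := by
  rw [pow_two, GG.mul_def, Bool.xor_self]

/-- the inclusion of `U` into `GG` -/
def inc : U →* GG where
  toFun u := ⟨u, false⟩
  map_one' := rfl
  map_mul' u v := by
    rw [GG.mul_def]
    rfl

theorem inc_injective : Function.Injective inc := by
  intro u v h
  exact congrArg GG.u h

theorem GG.sq_eq (g : GG) : g ^ 2 = inc (g.u * GG.act g.e g.u) := GG.sq g

theorem GG.pow72 (g : GG) : g ^ 72 = 1 := by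
  rw [show 72 = 2 * 36 from rfl, pow_mul, GG.sq_eq, ← map_pow, U.pow36, map_one]

theorem GG.pow8 (g : GG) : g ^ 8 = inc ((g.u * GG.act g.e g.u) ^ 4) := by
  rw [show 8 = 2 * 4 from rfl, pow_mul, GG.sq_eq, ← map_pow]

theorem GG.pow8_mem (g : GG) : g ^ 8 ∈ inc.range := by
  rw [GG.pow8]
  exact ⟨_, rfl⟩

/-! ### Eisenstein integers and the Weil matrices -/

/-- Eisenstein integers `a + b ω`, `ω ^ 2 = -1 - ω` -/
abbrev E := QuadraticAlgebra ℤ (-1) (-1)

/-- `√-3 = 1 + 2 ω` -/
def r3 : E := ⟨1, 2⟩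

/-- `ω ^ x` for `x` modulo `3` -/
def ow (x : F) : E := if x = 0 then 1 else if x = 1 then ⟨0, 1⟩ else ⟨-1, -1⟩

/-- the quadratic character modulo `3` (for nonzero arguments) -/
def sg (x : F) : E := if x = 1 then 1 else -1

/-- `√-3` times the Weil matrix of `(a b; c d)` -/
def T (a b c d : F) (t s : F) : E :=
  if b = 0 then (if s = a * t then sg a * r3 * ow (a * c * t * t) else 0)
  else sg b * ow (b * d * t * t + b * t * s + a * b * s * s)

/-- Heisenberg matrices -/
def M (x y : F) (t s : F) : E := if s = t + x then ow (y * t + 2 * x * y) else 0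

theorem ow_add : ∀ x y : F, ow (x + y) = ow x * ow y := by decide +kernel

theorem r3_sq : r3 * r3 = -3 := by decide +kernel

def TM (a b c d : F) : Matrix F F E := Matrix.of (T a b c d)

def MM (x y : F) : Matrix F F E := Matrix.of (M x y)

theorem sumF {A : Type*} [AddCommMonoid A] (f : F → A) : ∑ x : F, f x = f 0 + f 1 + f 2 :=
  Fin.sum_univ_three f

theorem T_mul : ∀ a b c d : F, a * d - b * c = 1 → ∀ a' b' c' d' : F, a' * d' - b' * c' = 1 →
    ∀ t s : F, T a b c d t 0 * T a' b' c' d' 0 s + T a b c d t 1 * T a' b' c' d' 1 s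
      + T a b c d t 2 * T a' b' c' d' 2 s
      = r3 * T (a * a' + b * c') (a * b' + b * d') (c * a' + d * c') (c * b' + d * d') t s := by
  decide +kernel

theorem M_mul : ∀ x y x' y' t s : F, M x y t 0 * M x' y' 0 s + M x y t 1 * M x' y' 1 s
      + M x y t 2 * M x' y' 2 s
      = ow (2 * (x * y' - y * x')) * M (x + x') (y + y') t s := by
  decide +kernel

theorem T_M : ∀ a b c d : F, a * d - b * c = 1 → ∀ x y t s : F,
    T a b c d t 0 * M x y 0 s + T a b c d t 1 * M x y 1 s + T a b c d t 2 * M x y 2 s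
      = M (a * x + b * y) (c * x + d * y) t 0 * T a b c d 0 s
        + M (a * x + b * y) (c * x + d * y) t 1 * T a b c d 1 s
        + M (a * x + b * y) (c * x + d * y) t 2 * T a b c d 2 s := by
  decide +kernel

theorem TM_mul {a b c d a' b' c' d' : F} (h : a * d - b * c = 1) (h' : a' * d' - b' * c' = 1) :
    TM a b c d * TM a' b' c' d' =
      r3 • TM (a * a' + b * c') (a * b' + b * d') (c * a' + d * c') (c * b' + d * d') := by
  refine Matrix.ext fun t s => ?_
  rw [Matrix.mul_apply, sumF]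
  exact T_mul a b c d h a' b' c' d' h' t s

theorem MM_mul (x y x' y' : F) :
    MM x y * MM x' y' = ow (2 * (x * y' - y * x')) • MM (x + x') (y + y') := by
  refine Matrix.ext fun t s => ?_
  rw [Matrix.mul_apply, sumF]
  exact M_mul x y x' y' t s

theorem TM_MM {a b c d : F} (h : a * d - b * c = 1) (x y : F) :
    TM a b c d * MM x y = MM (a * x + b * y) (c * x + d * y) * TM a b c d := by
  refine Matrix.ext fun t s => ?_
  rw [Matrix.mul_apply, Matrix.mul_apply, sumF, sumF]
  exact T_M a b c d h x y t s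

/-- `√-3` times the degree 3 Weil representation of `3^{1+2} : SL(2,3)` -/
def Q (x y a b c d : F) : Matrix F F E := MM x y * TM a b c d

theorem Q_mul {x y a b c d x' y' a' b' c' d' : F} (h : a * d - b * c = 1)
    (h' : a' * d' - b' * c' = 1) :
    Q x y a b c d * Q x' y' a' b' c' d' =
      (ow (2 * (x * (c * x' + d * y') - y * (a * x' + b * y'))) * r3) •
      Q (x + (a * x' + b * y')) (y + (c * x' + d * y'))
        (a * a' + b * c') (a * b' + b * d') (c * a' + d * c') (c * b' + d * d') := by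
  unfold Q
  calc MM x y * TM a b c d * (MM x' y' * TM a' b' c' d')
      = MM x y * (TM a b c d * MM x' y') * TM a' b' c' d' := by
        simp only [Matrix.mul_assoc]
    _ = (MM x y * MM (a * x' + b * y') (c * x' + d * y')) * (TM a b c d * TM a' b' c' d') := by
        rw [TM_MM h]
        simp only [Matrix.mul_assoc]
    _ = _ := by
        rw [MM_mul, TM_mul h h', Matrix.smul_mul, Matrix.mul_smul, smul_smul]

/-- `-3` times the degree 9 Weil representation, on raw elements -/
def R' (r : R9) : Matrix (F × F) (F × F) E :=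
  ow r.z • (Q r.x1 r.y1 r.a r.b r.c r.d ⊗ₖ Q r.x2 r.y2 r.a r.b r.c r.d)

theorem R'_mul (r s : R9) (hr : r.a * r.d - r.b * r.c = 1) (hs : s.a * s.d - s.b * s.c = 1) :
    R' r * R' s = (-3 : E) • R' (mulR r s) := by
  unfold R'
  rw [Matrix.smul_mul, Matrix.mul_smul, ← Matrix.mul_kronecker_mul, Q_mul hr hs, Q_mul hr hs,
    Matrix.smul_kronecker, Matrix.kronecker_smul, smul_smul, smul_smul, smul_smul, smul_smul,
    ← r3_sq]
  have h1 : (mulR r s).z = r.z + s.z
      + 2 * (r.x1 * (r.c * s.x1 + r.d * s.y1) - r.y1 * (r.a * s.x1 + r.b * s.y1))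
      + 2 * (r.x2 * (r.c * s.x2 + r.d * s.y2) - r.y2 * (r.a * s.x2 + r.b * s.y2)) := by
    simp only [mulR]
    ring
  rw [h1, ow_add, ow_add, ow_add]
  congr 1
  ring

theorem Q_one : Q 0 0 1 0 0 1 = r3 • (1 : Matrix F F E) := by
  decide +kernel

theorem R'_one : R' oneR = (-3 : E) • (1 : Matrix (F × F) (F × F) E) := by
  unfold R'
  simp only [oneR]
  rw [Q_one, Matrix.smul_kronecker, Matrix.kronecker_smul, smul_smul, smul_smul,
    Matrix.one_kronecker_one, ← r3_sq]
  congr 1

/-- trace of `Q x y a b c d` -/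
def tr1 (x y a b c d : F) : E :=
  ow (2 * x * y) * T a b c d x 0 + ow (y + 2 * x * y) * T a b c d (1 + x) 1
    + ow (2 * y + 2 * x * y) * T a b c d (2 + x) 2

theorem trace_Q (x y a b c d : F) : (Q x y a b c d).trace = tr1 x y a b c d := by
  have h (t : F) : (MM x y * TM a b c d) t t = ow (y * t + 2 * x * y) * T a b c d (t + x) t := by
    rw [Matrix.mul_apply]
    simp only [MM, TM, Matrix.of_apply, M, ite_mul, zero_mul, Finset.sum_ite_eq',
      Finset.mem_univ, if_true]
  unfold Q tr1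
  rw [Matrix.trace, sumF]
  simp only [Matrix.diag_apply, h, mul_zero, zero_add, mul_one]
  rw [add_comm 1 x, add_comm 2 x, mul_comm y 2]

/-- `-3` times the character -/
def X (r : R9) : E := ow r.z * (tr1 r.x1 r.y1 r.a r.b r.c r.d * tr1 r.x2 r.y2 r.a r.b r.c r.d)

theorem trace_R' (r : R9) : (R' r).trace = X r := by
  unfold R' X
  rw [Matrix.trace_smul, Matrix.trace_kronecker, trace_Q, trace_Q, smul_eq_mul]

/-! ### The two sums -/

/-- `(r · al r)^4` on raw elements -/
def P4 (r : R9) : R9 :=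
  mulR (mulR (mulR r (alR r)) (mulR r (alR r))) (mulR (mulR r (alR r)) (mulR r (alR r)))

theorem U.pow4_al (u : U) : ((u * U.al u) ^ 4).1 = P4 u.1 := by
  have h1 : (u * U.al u) ^ 4 =
      ((u * U.al u) * (u * U.al u)) * ((u * U.al u) * (u * U.al u)) := by
    simp only [pow_succ, pow_zero, one_mul, mul_assoc]
  rw [h1]
  rfl

theorem P4_z (x1 y1 x2 y2 z a b c d : F) :
    P4 ⟨x1, y1, x2, y2, z, a, b, c, d⟩ = P4 ⟨x1, y1, x2, y2, 0, a, b, c, d⟩ := by
  have h : mulR ⟨x1, y1, x2, y2, z, a, b, c, d⟩ (alR ⟨x1, y1, x2, y2, z, a, b, c, d⟩) =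
      mulR ⟨x1, y1, x2, y2, 0, a, b, c, d⟩ (alR ⟨x1, y1, x2, y2, 0, a, b, c, d⟩) := by
    ext <;> simp [mulR, alR]
  unfold P4
  rw [h]

theorem big_sum : (∑ a : F, ∑ b : F, ∑ c : F, ∑ d : F, if a * d - b * c = 1 then
      ∑ x1 : F, ∑ y1 : F, ∑ x2 : F, ∑ y2 : F, 3 * X (P4 ⟨x1, y1, x2, y2, 0, a, b, c, d⟩)
      else 0) = (17496 : E) := by
  decide +kernel

theorem sum_true : ∑ u : U, X ((u * U.al u) ^ 4).1 = (17496 : E) := by
  rw [← big_sum]
  simp only [U.pow4_al]
  rw [sum_U (fun r => X (P4 r))]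
  have h (x1 y1 x2 y2 a b c d : F) :
      ∑ z : F, X (P4 ⟨x1, y1, x2, y2, z, a, b, c, d⟩) =
        3 * X (P4 ⟨x1, y1, x2, y2, 0, a, b, c, d⟩) := by
    rw [sumF, P4_z x1 y1 x2 y2 1, P4_z x1 y1 x2 y2 2]
    ring
  simp only [h]

/-- a central element of order three -/
def Z0 : U := ⟨⟨0, 0, 0, 0, 1, 1, 0, 0, 1⟩, by decide⟩

theorem mul_Z0_val (u : U) : (u * Z0).1 = { u.1 with z := u.1.z + 1 } := by
  rw [U.mul_val]
  ext <;> simp [mulR, Z0]

theorem Z0_mul_val (u : U) : (Z0 * u).1 = { u.1 with z := u.1.z + 1 } := by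
  rw [U.mul_val]
  ext <;> simp [mulR, Z0, add_comm]

theorem commute_Z0 (u : U) : Commute u Z0 :=
  Subtype.ext ((mul_Z0_val u).trans (Z0_mul_val u).symm)

theorem X_mul_Z0 (u : U) : X (u * Z0).1 = ow 1 * X u.1 := by
  rw [mul_Z0_val]
  unfold X
  rw [ow_add]
  ring

theorem X_mul_Z0_pow (u : U) (n : ℕ) : X (u * Z0 ^ n).1 = ow 1 ^ n * X u.1 := by
  induction n with
  | zero => simp
  | succ n ih => rw [pow_succ, ← mul_assoc, X_mul_Z0, ih]; ring

theorem sum_false : ∑ u : U, X ((u * u) ^ 4).1 = (0 : E) := by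
  have h1 : ∑ u : U, X ((u * u) ^ 4).1 = ∑ u : U, X (((u * Z0) * (u * Z0)) ^ 4).1 :=
    (Equiv.sum_comp (Equiv.mulRight Z0) (fun u : U => X ((u * u) ^ 4).1)).symm
  have h2 (u : U) : ((u * Z0) * (u * Z0)) ^ 4 = (u * u) ^ 4 * Z0 ^ 8 := by
    rw [← pow_two, ← pow_mul, (commute_Z0 u).mul_pow, ← pow_two, ← pow_mul]
  simp only [h2, X_mul_Z0_pow] at h1
  rw [← Finset.mul_sum] at h1
  have h3 : ow 1 ^ 8 = (⟨-1, -1⟩ : E) := by decide +kernel
  rw [h3] at h1
  generalize ∑ u : U, X ((u * u) ^ 4).1 = S at h1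
  have h4 := congrArg QuadraticAlgebra.re h1
  have h5 := congrArg QuadraticAlgebra.im h1
  simp only [QuadraticAlgebra.re_mul, QuadraticAlgebra.im_mul] at h4 h5
  ext
  · change S.re = 0
    linarith
  · change S.im = 0
    linarith

/-! ### The representation over a field with a cube root of unity -/

section Field

variable {K : Type*} [Field K] [CharZero K]

theorem map_mul_aux (φ : E →+* K) {A B C : Matrix (F × F) (F × F) E} (h : A * B = (-3 : E) • C) :
    ((-3 : K)⁻¹ • A.map φ) * ((-3 : K)⁻¹ • B.map φ) = (-3 : K)⁻¹ • C.map φ := by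
  have h3 : (-3 : K) ≠ 0 := by norm_num
  rw [Matrix.smul_mul, Matrix.mul_smul, ← Matrix.map_mul, h, smul_smul]
  ext i j
  simp only [Matrix.smul_apply, Matrix.map_apply, smul_eq_mul, map_mul, map_neg, map_ofNat]
  field_simp

/-- the matrix representation of `U` of degree `9` -/
noncomputable def sig (φ : E →+* K) : U →* Matrix (F × F) (F × F) K where
  toFun u := (-3 : K)⁻¹ • (R' u.1).map φ
  map_one' := by
    rw [U.one_val, R'_one]
    have h3 : (-3 : K) ≠ 0 := by norm_num
    ext i j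
    rw [Matrix.smul_apply, Matrix.map_apply, Matrix.smul_apply, smul_eq_mul, smul_eq_mul, map_mul,
      map_neg, map_ofNat, ← mul_assoc, inv_mul_cancel₀ h3, one_mul, Matrix.one_apply,
      Matrix.one_apply]
    split_ifs <;> simp
  map_mul' u v := by
    rw [U.mul_val]
    exact (map_mul_aux φ (R'_mul u.1 v.1 u.2 v.2)).symm

theorem sig_trace (φ : E →+* K) (u : U) : (sig φ u).trace = (-3 : K)⁻¹ * φ (X u.1) := by
  change ((-3 : K)⁻¹ • (R' u.1).map φ).trace = _
  rw [Matrix.trace_smul, ← trace_R', smul_eq_mul, Matrix.trace, Matrix.trace, map_sum]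
  rfl

/-- the representation of `U` of degree `9` -/
noncomputable def sigRep (φ : E →+* K) : Representation K U (F × F → K) :=
  (Matrix.toLinAlgEquiv' : Matrix (F × F) (F × F) K ≃ₐ[K] _).toAlgHom.toMonoidHom.comp (sig φ)

theorem sigRep_trace (φ : E →+* K) (u : U) :
    LinearMap.trace K (F × F → K) (sigRep φ u) = (-3 : K)⁻¹ * φ (X u.1) := by
  rw [← sig_trace]
  exact Matrix.trace_toLin'_eq (sig φ u)

theorem not_char_of_hom (φ : E →+* K) {V : Type*} [AddCommGroup V] [Module K V]
    [FiniteDimensional K V] (ρ : Representation K GG V)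
    (hρ : ∀ x, LinearMap.trace K V (ρ x) = (Psi 2 GG x : K)) : False := by
  obtain ⟨n, hn⟩ := pairing GG.pow72 inc inc_injective GG.pow8_mem ρ hρ (sigRep φ)
    (fun g => (-3 : K)⁻¹ * φ (X g.u.1)) (fun u => (sigRep_trace φ u).symm)
  rw [← Finset.mul_sum, ← map_sum, sum_GG] at hn
  have h1 : ∀ u : U, ((⟨u, true⟩ : GG) ^ 8).u = (u * U.al u) ^ 4 := fun u => by
    rw [GG.pow8]; rfl
  have h2 : ∀ u : U, ((⟨u, false⟩ : GG) ^ 8).u = (u * u) ^ 4 := fun u => by
    rw [GG.pow8]; rfl
  simp only [h1, h2] at hn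
  rw [sum_true, sum_false, add_zero, map_ofNat] at hn
  have h3 : ((n + 5832 : ℕ) : K) = 0 := by
    push_cast
    rw [← hn]
    norm_num
  have h4 : n + 5832 = 0 := by exact_mod_cast h3
  omega

end Field

/-- the ring homomorphism from the Eisenstein integers to an algebraically closed field -/
theorem exists_hom (K : Type*) [Field K] [CharZero K] [IsAlgClosed K] : Nonempty (E →+* K) := by
  obtain ⟨z, hz⟩ := IsAlgClosed.exists_pow_nat_eq (-3 : K) (n := 2) (by norm_num)
  let w : K := (-1 + z) / 2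
  have hw : w * w = (-1 : ℤ) • (1 : K) + (-1 : ℤ) • w := by
    simp only [neg_smul, one_smul]
    change (-1 + z) / 2 * ((-1 + z) / 2) = -1 + -((-1 + z) / 2)
    field_simp
    linear_combination hz
  exact ⟨(QuadraticAlgebra.lift ⟨w, hw⟩ : E →ₐ[ℤ] K).toRingHom⟩

theorem not_char {k : Type*} [Field k] [CharZero k] {V : Type*} [AddCommGroup V] [Module k V]
    [FiniteDimensional k V] (ρ : Representation k GG V)
    (hρ : ∀ x, LinearMap.trace k V (ρ x) = (Psi 2 GG x : k)) : False := by
  obtain ⟨φ⟩ := exists_hom (AlgebraicClosure k)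
  let b := Module.finBasis k V
  let m : GG →* Matrix (Fin (Module.finrank k V)) (Fin (Module.finrank k V)) (AlgebraicClosure k) :=
    ((RingHom.mapMatrix (algebraMap k (AlgebraicClosure k))).toMonoidHom.comp
      (LinearMap.toMatrixAlgEquiv b).toAlgHom.toMonoidHom).comp ρ
  let ρ' : Representation (AlgebraicClosure k) GG (Fin (Module.finrank k V) → AlgebraicClosure k) :=
    (Matrix.toLinAlgEquiv' : Matrix _ _ (AlgebraicClosure k) ≃ₐ[AlgebraicClosure k] _).toAlgHom.toMonoidHom.comp m
  refine not_char_of_hom φ ρ' fun x => ?_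
  have h1 : LinearMap.trace (AlgebraicClosure k) _ (ρ' x) = (m x).trace :=
    Matrix.trace_toLin'_eq (m x)
  have h2 : (m x).trace = algebraMap k (AlgebraicClosure k) (LinearMap.trace k V (ρ x)) := by
    rw [LinearMap.trace_eq_matrix_trace k b, Matrix.trace, Matrix.trace, map_sum]
    rfl
  rw [h1, h2, hρ, map_natCast]

theorem card_U : Fintype.card U = 5832 := by
  rw [Fintype.card_eq_sum_ones]
  exact (sum_U (fun _ : R9 => (1 : ℕ))).trans (by decide +kernel)

theorem card_GG : Nat.card GG = 11664 := by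
  rw [Nat.card_eq_fintype_card, Fintype.card_eq_sum_ones, sum_GG]
  have h : ∑ _u : U, (1 : ℕ) = 5832 := by
    rw [← card_U, Fintype.card_eq_sum_ones]
  rw [h]

/-- There is a finite group `G` (of order `11664 = 2 ^ 4 * 3 ^ 6`) such that `Psi 2 G` is not the
character of any finite-dimensional representation of `G` over any field of characteristic zero.
With `k = ℂ` this is the negated form of Q1 (with `p = 2`); with `k = K` the field of fractions of
`R` it shows that no `RG`-module, projective or not, affords `Psi 2 G` (negated form of Q2). -/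
theorem result.{u, v} : ∃ (G : Type) (_ : Group G) (_ : Finite G),
    Nat.card G = 11664 ∧
    ∀ (k : Type u) [Field k] [CharZero k] (V : Type v) [AddCommGroup V] [Module k V]
      [FiniteDimensional k V] (ρ : Representation k G V),
      ∃ x : G, LinearMap.trace k V (ρ x) ≠ (Psi 2 G x : k) := by
  refine ⟨GG, inferInstance, inferInstance, card_GG, ?_⟩
  intro k _ _ V _ _ _ ρ
  by_contra h
  push Not at h
  exact not_char ρ h

end Pool.Agent.Results.MP_68e5bf_al.PsiNotCharacter
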